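import Pool.Agent.H723R3.Beur.Stmts

set_option autoImplicit false

/-!
# Task A4 (scalar lemma) of the project BEURLING of helper723 (by helper857)
-/

namespace Beur.A4

open scoped BoundedContinuousFunction Cardinal Topology
open Filter

universe u

variable {G : Type u} [Group G] [TopologicalSpace G] [DiscreteTopology G]

theorem L_act (K : Ker G) (x : StrongDual ℝ (G →ᵇ ℝ)) (g : G) (F : G →ᵇ ℝ) :
    L K g (act K x F) = act K x (L K g F) := by
  ext h
  simp only [L_apply, act_apply]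
  rw [L_L, map_smul, smul_eq_mul]

theorem abs_le_of_pos {z : StrongDual ℝ (G →ᵇ ℝ)} (hz : Pos z) (F : G →ᵇ ℝ) :
    |z F| ≤ z 1 * ‖F‖ := by
  have h1 : 0 ≤ z (‖F‖ • (1 : G →ᵇ ℝ) - F) := hz _ fun g => by
    have := (le_abs_self (F g)).trans (F.norm_coe_le_norm g)
    simp
    linarith
  have h2 : 0 ≤ z (‖F‖ • (1 : G →ᵇ ℝ) + F) := hz _ fun g => by
    have := (neg_abs_le (F g))
    have h3 := F.norm_coe_le_norm g
    rw [Real.norm_eq_abs] at h3
    simp
    linarith
  rw [map_sub, map_smul, smul_eq_mul] at h1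
  rw [map_add, map_smul, smul_eq_mul] at h2
  rw [abs_le]
  constructor <;> nlinarith

theorem norm_le_of_pos {z : StrongDual ℝ (G →ᵇ ℝ)} (hz : Pos z) : ‖z‖ ≤ z 1 := by
  have h0 : 0 ≤ z 1 := hz 1 fun g => by simp
  refine ContinuousLinearMap.opNorm_le_bound _ h0 fun F => ?_
  rw [Real.norm_eq_abs]
  exact abs_le_of_pos hz F

theorem eq_zero_of_pos {z : StrongDual ℝ (G →ᵇ ℝ)} (hz : Pos z) (h : z 1 = 0) : z = 0 := by
  ext F
  have h1 := abs_le_of_pos hz F
  rw [h, zero_mul] at h1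
  exact abs_nonpos_iff.1 h1

theorem one_pos_of_ne {z : StrongDual ℝ (G →ᵇ ℝ)} (hz : Pos z) (h : z ≠ 0) : 0 < z 1 := by
  have h0 : 0 ≤ z 1 := hz 1 fun g => by simp
  rcases h0.eq_or_lt with h1 | h1
  · exact absurd (eq_zero_of_pos hz h1.symm) h
  · exact h1

theorem pos_of_mem {K : Ker G} {S : Set (G →ᵇ ℝ)} (hS : Adm K S) {z : StrongDual ℝ (G →ᵇ ℝ)}
    (hz : z ∈ pol S) : Pos z := fun F hF => hz F (hS.1 F hF)

/-- weak-* limits along an ultrafilter -/
theorem exists_lim (z : ℕ → StrongDual ℝ (G →ᵇ ℝ)) (hz : ∀ n, ‖z n‖ ≤ 1) :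
    ∃ z' : StrongDual ℝ (G →ᵇ ℝ), ∀ F : G →ᵇ ℝ,
      Tendsto (fun n => z n F) (hyperfilter ℕ : Filter ℕ) (𝓝 (z' F)) := by
  have hc := WeakDual.isCompact_closedBall (0 : StrongDual ℝ (G →ᵇ ℝ)) 1
  let f : ℕ → WeakDual ℝ (G →ᵇ ℝ) := fun n => StrongDual.toWeakDual (z n)
  have hm : ((hyperfilter ℕ).map f : Filter (WeakDual ℝ (G →ᵇ ℝ))) ≤
      𝓟 (WeakDual.toStrongDual ⁻¹' Metric.closedBall (0 : StrongDual ℝ (G →ᵇ ℝ)) 1) := by
    rw [le_principal_iff]
    refine Filter.mem_map.2 (Filter.univ_mem' fun n => ?_)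
    show dist (z n) 0 ≤ 1
    have h1 : dist (z n) 0 = ‖z n - 0‖ := dist_eq_norm (z n) 0
    rw [h1]
    have e : z n - 0 = z n := by ext F; exact sub_zero _
    rw [e]
    exact hz n
  obtain ⟨z', -, h⟩ := hc.ultrafilter_le_nhds ((hyperfilter ℕ).map f) hm
  refine ⟨WeakDual.toStrongDual z', fun F => ?_⟩
  have h1 : Tendsto f (hyperfilter ℕ : Filter ℕ) (𝓝 z') := h
  exact ((WeakDual.eval_continuous F).tendsto z').comp h1

variable {K : Ker G} {S : Set (G →ᵇ ℝ)}

/-- extension lemma -/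
theorem extend (hS : MaxAdm K S) {x : StrongDual ℝ (G →ᵇ ℝ)} (s : ℝ)
    {z : StrongDual ℝ (G →ᵇ ℝ)} (hz : z ∈ pol S) (hz0 : z ≠ 0)
    (h : ∀ F ∈ S, 0 ≤ z (act K x F - s • F)) :
    ∀ F ∈ S, act K x F - s • F ∈ S := by
  have hA : Adm K (S ∪ {H | ∃ F ∈ S, H = act K x F - s • F}) := by
    refine ⟨fun F hF => Or.inl (hS.1.1 F hF), fun Q hQ F hF => Or.inl (hS.1.2.1 Q hQ F hF),
      ?_, z, ?_, hz0⟩
    · rintro g F (hF | ⟨F', hF', rfl⟩)
      · exact Or.inl (hS.1.2.2.1 g F hF)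
      · refine Or.inr ⟨L K g F', hS.1.2.2.1 g F' hF', ?_⟩
        rw [map_sub, map_smul, L_act]
    · rintro F (hF | ⟨F', hF', rfl⟩)
      · exact hz F hF
      · exact h F' hF'
  intro F hF
  exact hS.2 _ hA Set.subset_union_left (Or.inr ⟨F, hF, rfl⟩)

end Beur.A4

namespace Beur

open A4 Filter
open scoped BoundedContinuousFunction Cardinal Topology

theorem taskA4 : TaskA4 := by
  intro G _ _ _ _ K S hS x hx
  have hpos : ∀ z ∈ pol S, Pos z := fun z hz => pos_of_mem hS.1 hz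
  -- right multiplication by x preserves the cone
  have hact : ∀ F ∈ S, act K x F ∈ S := by
    intro F hF
    refine hS.1.1 _ fun g => ?_
    rw [act_apply]
    exact hx _ (hS.1.2.2.1 g F hF)
  obtain ⟨z0, hz0, hz0'⟩ := hS.1.2.2.2
  have hz01 : 0 < z0 1 := one_pos_of_ne (hpos z0 hz0) hz0'
  have hone : (1 : G →ᵇ ℝ) ∈ S := hS.1.1 1 fun g => by simp
  let A : Set ℝ := {s | 0 ≤ s ∧ ∀ z ∈ pol S, ∀ F ∈ S, 0 ≤ z (act K x F - s • F)}
  have hA0 : (0 : ℝ) ∈ A := by
    refine ⟨le_rfl, fun z hz F hF => ?_⟩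
    rw [zero_smul, sub_zero]
    exact hz _ (hact F hF)
  have hAb : BddAbove A := by
    refine ⟨z0 (act K x 1) / z0 1, fun s hs => ?_⟩
    have h1 := hs.2 z0 hz0 1 hone
    rw [map_sub, map_smul, smul_eq_mul] at h1
    rw [le_div_iff₀ hz01]
    linarith
  obtain ⟨t, ht⟩ : ∃ t, t = sSup A := ⟨_, rfl⟩
  have ht0 : 0 ≤ t := by rw [ht]; exact le_csSup hAb hA0
  have htA : t ∈ A := by
    refine ⟨ht0, fun z hz F hF => ?_⟩
    rw [map_sub, map_smul, smul_eq_mul]
    rcases (hz F hF).eq_or_lt with h1 | h1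
    · rw [← h1, mul_zero, sub_zero]
      exact hz _ (hact F hF)
    · have h2 : t ≤ z (act K x F) / z F := by
        rw [ht]
        refine csSup_le ⟨0, hA0⟩ fun s hs => ?_
        have h3 := hs.2 z hz F hF
        rw [map_sub, map_smul, smul_eq_mul] at h3
        rw [le_div_iff₀ h1]
        linarith
      rw [le_div_iff₀ h1] at h2
      linarith
  obtain ⟨B, hB⟩ : ∃ B : (G →ᵇ ℝ) →L[ℝ] (G →ᵇ ℝ),
      B = act K x - t • ContinuousLinearMap.id ℝ (G →ᵇ ℝ) := ⟨_, rfl⟩
  have hBa : ∀ F, B F = act K x F - t • F := fun F => by rw [hB]; rfl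
  have hBS : ∀ z ∈ pol S, ∀ F ∈ S, 0 ≤ z (B F) := fun z hz F hF => by
    rw [hBa]; exact htA.2 z hz F hF
  have hBL : ∀ g F, L K g (B F) = B (L K g F) := fun g F => by
    rw [hBa, hBa, map_sub, map_smul, L_act]
  by_cases hcase : ∃ z ∈ pol S, z ≠ 0 ∧ ∀ F, z (B F) = 0
  · -- the easy case
    obtain ⟨z1, hz1, hz1', hz1B⟩ := hcase
    have hAd : Adm K (S ∪ Set.range B) := by
      refine ⟨fun F hF => Or.inl (hS.1.1 F hF), fun Q hQ F hF => Or.inl (hS.1.2.1 Q hQ F hF),
        ?_, z1, ?_, hz1'⟩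
      · rintro g F (hF | ⟨F', rfl⟩)
        · exact Or.inl (hS.1.2.2.1 g F hF)
        · exact Or.inr ⟨L K g F', (hBL g F').symm⟩
      · rintro F (hF | ⟨F', rfl⟩)
        · exact hz1 F hF
        · rw [hz1B]
    have hsub := hS.2 _ hAd Set.subset_union_left
    refine ⟨t, ht0, fun z hz => ?_⟩
    ext F
    have h1 : 0 ≤ z (B F) := hz _ (hsub (Or.inr ⟨F, rfl⟩))
    have h2 : 0 ≤ z (B (-F)) := hz _ (hsub (Or.inr ⟨-F, rfl⟩))
    rw [map_neg, map_neg] at h2
    have h3 : z (B F) = 0 := le_antisymm (by linarith) h1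
    rw [hBa, map_sub, map_smul, smul_eq_mul] at h3
    show z (act K x F) = t • z F
    rw [smul_eq_mul]
    linarith
  · exfalso
    push Not at hcase
    -- closed under limits
    have hlim : ∀ (z : ℕ → StrongDual ℝ (G →ᵇ ℝ)), (∀ n, z n ∈ pol S) → (∀ n, z n 1 = 1) →
        ∃ z', z' ∈ pol S ∧ z' 1 = 1 ∧ ∀ F : G →ᵇ ℝ,
          Tendsto (fun n => z n F) (hyperfilter ℕ : Filter ℕ) (𝓝 (z' F)) := by
      intro z hz hz1
      obtain ⟨z', hz'⟩ := exists_lim z (fun n => by
        have := norm_le_of_pos (hpos _ (hz n))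
        rwa [hz1] at this)
      refine ⟨z', fun F hF => ?_, ?_, hz'⟩
      · exact ge_of_tendsto' (hz' F) fun n => hz n F hF
      · have h1 := hz' 1
        simp only [hz1] at h1
        exact tendsto_nhds_unique h1 tendsto_const_nhds |>.symm ▸ rfl
    have hscale : ∀ z ∈ pol S, ∀ r : ℝ, 0 ≤ r → r • z ∈ pol S := by
      intro z hz r hr F hF
      show 0 ≤ r • z F
      exact smul_nonneg hr (hz F hF)
    have hc : ∃ c : ℝ, 0 < c ∧ ∀ z ∈ pol S, c * z 1 ≤ z (B 1) := by
      by_contra hcon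
      push Not at hcon
      have h1 : ∀ n : ℕ, ∃ z ∈ pol S, z 1 = 1 ∧ z (B 1) < 1 / ((n : ℝ) + 1) := by
        intro n
        obtain ⟨z, hz, hzn⟩ := hcon (1 / ((n : ℝ) + 1)) (by positivity)
        have h2 : 0 ≤ z (B 1) := hBS z hz 1 hone
        have h3 : 0 < z 1 := by
          rcases ((hpos z hz) 1 (fun g => by simp)).eq_or_lt with h4 | h4
          · rw [← h4, mul_zero] at hzn
            exact absurd hzn (not_lt.2 h2)
          · exact h4
        refine ⟨(z 1)⁻¹ • z, hscale z hz _ (inv_nonneg.2 h3.le), ?_, ?_⟩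
        · show (z 1)⁻¹ * z 1 = 1
          exact inv_mul_cancel₀ h3.ne'
        · show (z 1)⁻¹ * z (B 1) < _
          rw [inv_mul_lt_iff₀ h3, mul_comm]
          exact hzn
      choose z hz hz1 hzB using h1
      obtain ⟨z', hz', hz'1, hz'l⟩ := hlim z hz hz1
      have h2 : z' (B 1) ≤ 0 := by
        have h3 : Tendsto (fun n : ℕ => 1 / ((n : ℝ) + 1)) (hyperfilter ℕ : Filter ℕ) (𝓝 0) :=
          tendsto_one_div_add_atTop_nhds_zero_nat.mono_left Nat.hyperfilter_le_atTop
        exact le_of_tendsto_of_tendsto' (hz'l (B 1)) h3 fun n => (hzB n).le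
      have h3 : z'.comp B ∈ pol S := fun F hF => hBS z' hz' F hF
      have h4 : z'.comp B = 0 := eq_zero_of_pos (hpos _ h3)
        (le_antisymm h2 (hBS z' hz' 1 hone))
      obtain ⟨F, hF⟩ := hcase z' hz' (by
        intro h5
        rw [h5] at hz'1
        simp at hz'1)
      exact hF (by
        have := congrArg (fun w : StrongDual ℝ (G →ᵇ ℝ) => w F) h4
        exact this)
    obtain ⟨c, hc0, hc⟩ := hc
    -- the iterates
    obtain ⟨l, hl0, hlc⟩ : ∃ l : ℝ, 0 < l ∧ l < c := ⟨c / 2, by linarith, by linarith⟩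
    let w : ℕ → StrongDual ℝ (G →ᵇ ℝ) := fun n => z0.comp (B ^ n)
    have hw0 : w 0 = z0 := by
      ext F
      show z0 ((B ^ 0) F) = z0 F
      rw [pow_zero]; rfl
    have hws : ∀ n F, w (n + 1) F = w n (B F) := by
      intro n F
      show z0 ((B ^ (n + 1)) F) = z0 ((B ^ n) (B F))
      rw [pow_succ]; rfl
    have hwC : ∀ n, w n ∈ pol S := by
      intro n
      induction n with
      | zero => rw [hw0]; exact hz0
      | succ n ih =>
        intro F hF
        rw [hws]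
        exact hBS _ ih F hF
    have hw1 : ∀ n, c ^ n * z0 1 ≤ w n 1 := by
      intro n
      induction n with
      | zero => rw [hw0, pow_zero, one_mul]
      | succ n ih =>
        rw [hws]
        refine le_trans ?_ (hc _ (hwC n))
        rw [pow_succ, mul_comm (c ^ n) c, mul_assoc]
        exact mul_le_mul_of_nonneg_left ih hc0.le
    let y : ℕ → StrongDual ℝ (G →ᵇ ℝ) := fun m =>
      ∑ n ∈ Finset.range (m + 1), (l⁻¹) ^ (n + 1) • w n
    have hyF : ∀ m F, y m F = ∑ n ∈ Finset.range (m + 1), (l⁻¹) ^ (n + 1) * w n F := by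
      intro m F
      simp only [y, _root_.sum_apply, _root_.smul_apply, smul_eq_mul]
    have hyC : ∀ m, y m ∈ pol S := by
      intro m F hF
      rw [hyF]
      exact Finset.sum_nonneg fun n _ => mul_nonneg (by positivity) (hwC n F hF)
    have hyB : ∀ m F, y m (B F) - l * y m F + z0 F = (l⁻¹) ^ (m + 1) * w (m + 1) F := by
      intro m F
      induction m with
      | zero =>
        rw [hyF, hyF]
        simp only [zero_add, Finset.sum_range_one, pow_one, hw0, hws]
        field_simp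
        ring
      | succ m ih =>
        have e : ∀ F', y (m + 1) F' = y m F' + (l⁻¹) ^ (m + 2) * w (m + 1) F' := by
          intro F'
          rw [hyF, hyF, Finset.sum_range_succ]
        rw [e, e, hws (m + 1)]
        have e2 : l * ((l⁻¹) ^ (m + 2) * w (m + 1) F) = (l⁻¹) ^ (m + 1) * w (m + 1) F := by
          rw [pow_succ (l⁻¹) (m + 1)]
          field_simp
        have e3 : y m (B F) + (l⁻¹) ^ (m + 2) * w (m + 1) (B F) -
            l * (y m F + (l⁻¹) ^ (m + 2) * w (m + 1) F) + z0 F =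
            (y m (B F) - l * y m F + z0 F) + (l⁻¹) ^ (m + 2) * w (m + 1) (B F) -
            l * ((l⁻¹) ^ (m + 2) * w (m + 1) F) := by ring
        rw [e3, ih, e2]
        ring
    have hN : ∀ m, l⁻¹ * z0 1 * (c / l) ^ m ≤ y m 1 := by
      intro m
      rw [hyF]
      calc l⁻¹ * z0 1 * (c / l) ^ m = (l⁻¹) ^ (m + 1) * (c ^ m * z0 1) := by
            rw [div_pow, pow_succ, inv_pow]
            field_simp
        _ ≤ (l⁻¹) ^ (m + 1) * w m 1 := mul_le_mul_of_nonneg_left (hw1 m) (by positivity)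
        _ ≤ _ := Finset.single_le_sum (f := fun n => (l⁻¹) ^ (n + 1) * w n 1)
            (fun n _ => mul_nonneg (by positivity) (hwC n 1 hone)) (Finset.self_mem_range_succ m)
    have hNpos : ∀ m, 0 < y m 1 := fun m => lt_of_lt_of_le (by positivity) (hN m)
    have hNt : Tendsto (fun m => (y m 1)⁻¹) atTop (𝓝 0) := by
      have h1 : Tendsto (fun m : ℕ => l⁻¹ * z0 1 * (c / l) ^ m) atTop atTop :=
        (tendsto_pow_atTop_atTop_of_one_lt ((one_lt_div hl0).2 hlc)).const_mul_atTop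
          (by positivity)
      exact (tendsto_atTop_mono hN h1).inv_tendsto_atTop
    obtain ⟨z', hz', hz'1, hz'l⟩ := hlim (fun m => (y m 1)⁻¹ • y m)
      (fun m => hscale _ (hyC m) _ (inv_nonneg.2 (hNpos m).le))
      (fun m => by
        show (y m 1)⁻¹ * y m 1 = 1
        exact inv_mul_cancel₀ (hNpos m).ne')
    have hfin : ∀ F ∈ S, 0 ≤ z' (act K x F - (t + l) • F) := by
      intro F hF
      have e : z' (act K x F - (t + l) • F) = z' (B F) - l * z' F := by
        rw [hBa, map_sub, map_sub, map_smul, map_smul, smul_eq_mul, smul_eq_mul]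
        ring
      rw [e]
      have h1 : Tendsto (fun m => (y m 1)⁻¹ * y m (B F) - l * ((y m 1)⁻¹ * y m F) +
          (y m 1)⁻¹ * z0 F) (hyperfilter ℕ : Filter ℕ) (𝓝 (z' (B F) - l * z' F + 0 * z0 F)) := by
        refine Tendsto.add (Tendsto.sub (hz'l (B F)) ((hz'l F).const_mul l)) ?_
        exact (hNt.mono_left Nat.hyperfilter_le_atTop).mul_const _
      rw [zero_mul, add_zero] at h1
      refine ge_of_tendsto' h1 fun m => ?_
      have e2 : (y m 1)⁻¹ * y m (B F) - l * ((y m 1)⁻¹ * y m F) + (y m 1)⁻¹ * z0 F =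
          (y m 1)⁻¹ * (y m (B F) - l * y m F + z0 F) := by ring
      rw [e2, hyB]
      exact mul_nonneg (inv_nonneg.2 (hNpos m).le)
        (mul_nonneg (by positivity) (hwC (m + 1) F hF))
    have hz'0 : z' ≠ 0 := by
      intro h
      rw [h] at hz'1
      simp at hz'1
    have hext := extend hS (t + l) hz' hz'0 hfin
    have hmem : t + l ∈ A := ⟨by linarith, fun z hz F hF => hz _ (hext F hF)⟩
    have := le_csSup hAb hmem
    rw [← ht] at this
    linarith

end Beur
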